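import Mathlib
import Pool.Agent.Helper37.GRT.Group

/-! MP_7cf8d2: definitions for the inner part. One multigraph `ends : E → Sym2 V` is fixed, all
objects live on vertex sets `K`. -/

namespace Pool.Agent.Helper37.IE

open Finset Pool.Agent.Helper49.CDC Pool.Agent.Helper37.GRT
open scoped Classical

universe u v

variable {V : Type v} {E : Type u}

/-- edges with both ends in `K` -/
def Inner (ends : E → Sym2 V) (K : Set V) : Set E := {e | ∀ v ∈ ends e, v ∈ K}

/-- edges with an end in `K` -/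
def Touch (ends : E → Sym2 V) (K : Set V) : Set E := {e | ∃ v ∈ ends e, v ∈ K}

/-- edges with exactly one end in `K` -/
def Legs (ends : E → Sym2 V) (K : Set V) : Set E :=
  {e | (∃ v ∈ ends e, v ∈ K) ∧ ∃ v ∈ ends e, v ∉ K}

/-- edges joining `S` and `T` -/
def Between (ends : E → Sym2 V) (S T : Set V) : Set E :=
  {e | ∃ u ∈ S, ∃ w ∈ T, ends e = s(u, w)}

/-- functions on the vertices constant along the edges of `X` -/
def Con (ends : E → Sym2 V) (X : Set E) (y : V → ZMod 2) : Prop :=
  ∀ e ∈ X, ∀ u w, ends e = s(u, w) → y u = y w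

/-- the subgraph induced on `K` is connected -/
def Conn (ends : E → Sym2 V) (K : Set V) : Prop :=
  ∀ S, S ⊆ K → S.Nonempty → S ≠ K → (Between ends S (K \ S)).Nonempty

/-- every vertex of `K` is on exactly three edges -/
def CubicOn [Fintype E] (ends : E → Sym2 V) (K : Set V) : Prop :=
  ∀ v ∈ K, (univ.filter (fun e => v ∈ ends e)).card = 3

/-- the cut conditions inside `K` -/
def CutOK (ends : E → Sym2 V) (K : Set V) : Prop :=
  (∀ S, S ⊆ K → 2 ≤ S.ncard → 4 ≤ (Legs ends S).ncard) ∧
    ∀ S, S ⊆ K → S ≠ K → 3 ≤ S.ncard → 5 ≤ (Legs ends S).ncard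

/-- A robust flow on `K`: `X` is 2-regular in `K`, `h` is a nowhere-zero flow of `K` with its legs,
the cycles of `X` contracted, `comp` maps the vertices of `K` to groups of components of `K - X`,
every group is balanced on every cycle of `X`, and for all rotations constant on the groups the
solutions of the balance equations are constant on the groups. -/
structure Robust [Fintype V] [Fintype E] (ends : E → Sym2 V) (K : Set V) (X : Set E) {P : Type u}
    (comp : V → P) (h : E → W) : Prop where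
  sub : X ⊆ Inner ends K
  deg : ∀ v, Deg02 ends X v
  inner : ∀ e ∈ Inner ends K, e ∉ X → ∀ u w, ends e = s(u, w) → comp u = comp w
  nz : ∀ e ∈ Touch ends K, e ∉ X → h e ≠ 0
  bal : ∀ y : V → ZMod 2, Con ends X y → ∀ p,
    ∑ v ∈ univ.filter (fun v => v ∈ K ∧ comp v = p), y v • bd ends (rs Xᶜ h) v = 0
  rob : ∀ (z : P → ZMod 3) (x : V → ZMod 2),
    (∀ e ∈ Inner ends K, e ∉ X → ∀ u w, ends e = s(u, w) → x u = x w) →
    (∀ y : V → ZMod 2, Con ends X y →
      ∑ v ∈ univ.filter (fun v => v ∈ K),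
        (y v * x v) • rotk (z (comp v)) (bd ends (rs Xᶜ h) v) = 0) →
    ∀ u ∈ K, ∀ w ∈ K, comp u = comp w → x u = x w

/-- all legs of `K` are attached to one group -/
def OneLeg (ends : E → Sym2 V) (K : Set V) {P : Type u} (comp : V → P) : Prop :=
  ∃ p0, ∀ e ∈ Legs ends K, ∀ v ∈ ends e, v ∈ K → comp v = p0

/-- `b` is the leg vector of a robust flow on `K` whose `X` contains `X0` -/
def GoodMX [Fintype V] [Fintype E] (ends : E → Sym2 V) (K : Set V) (X0 : Set E) (b : E → W) :
    Prop :=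
  ∃ (P : Type u) (_ : Fintype P) (X : Set E) (comp : V → P) (h : E → W),
    X0 ⊆ X ∧ Robust ends K X comp h ∧ ∀ e ∈ Legs ends K, h e = b e

/-- `b` is the leg vector of a robust flow on `K` -/
def GoodM [Fintype V] [Fintype E] (ends : E → Sym2 V) (K : Set V) (b : E → W) : Prop :=
  ∃ (P : Type u) (_ : Fintype P) (X : Set E) (comp : V → P) (h : E → W),
    Robust ends K X comp h ∧ ∀ e ∈ Legs ends K, h e = b e

/-- `b` is the leg vector of a robust flow on `K` with all legs in one group -/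
def Good [Fintype V] [Fintype E] (ends : E → Sym2 V) (K : Set V) (b : E → W) : Prop :=
  ∃ (P : Type u) (_ : Fintype P) (X : Set E) (comp : V → P) (h : E → W),
    Robust ends K X comp h ∧ OneLeg ends K comp ∧ ∀ e ∈ Legs ends K, h e = b e

/-- A switchable set of leg vectors. -/
structure Switchable (ends : E → Sym2 V) (K : Set V) (L : Set (E → W)) : Prop where
  congr : ∀ b ∈ L, ∀ b' : E → W, (∀ e ∈ Legs ends K, b e = b' e) → b' ∈ L
  nz : ∀ b ∈ L, ∀ e ∈ Legs ends K, b e ≠ 0
  rot : ∀ b ∈ L, ∀ k : ZMod 3, (fun e => rotk k (b e)) ∈ L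
  sw : ∀ b ∈ L, ∀ w : W, w ≠ 0 → ∃ π : E → E,
    (∀ e ∈ Legs ends K, b e ≠ w → π e ∈ Legs ends K ∧ b (π e) ≠ w ∧ π e ≠ e ∧ π (π e) = e) ∧
    ∀ S : Set E, (∀ e ∈ S, e ∈ Legs ends K ∧ b e ≠ w ∧ π e ∈ S) →
      (fun e => if e ∈ S then b e + w else b e) ∈ L

/-- `K` has a nonempty switchable set of good leg vectors (all legs in one group) -/
def Fine [Fintype V] [Fintype E] (ends : E → Sym2 V) (K : Set V) : Prop :=
  ∃ L : Set (E → W), L.Nonempty ∧ Switchable ends K L ∧ ∀ b ∈ L, Good ends K b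

/-- the same without the condition that the legs are in one group -/
def FineM [Fintype V] [Fintype E] (ends : E → Sym2 V) (K : Set V) : Prop :=
  ∃ L : Set (E → W), L.Nonempty ∧ Switchable ends K L ∧ ∀ b ∈ L, GoodM ends K b

/-- leg vectors of the union of two sets -/
def Gl (ends : E → Sym2 V) (K1 K2 : Set V) (L1 L2 : Set (E → W)) : Set (E → W) :=
  {b | ∃ b' ∈ L1, b' ∈ L2 ∧ ∀ e ∈ Legs ends (K1 ∪ K2), b' e = b e}

/-- the nowhere-zero leg vectors with sum zero -/
noncomputable def AllL [Fintype E] (ends : E → Sym2 V) (S : Set V) : Set (E → W) :=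
  {b | (∀ e ∈ Legs ends S, b e ≠ 0) ∧ ∑ e ∈ univ.filter (fun e => e ∈ Legs ends S), b e = 0}

/-- basic properties of the class of graphs: no loops, degrees 0 and 3, no bridge -/
structure Cub [Fintype E] (ends : E → Sym2 V) : Prop where
  loop : ∀ e, ¬ (ends e).IsDiag
  deg : ∀ v, (univ.filter (fun e => v ∈ ends e)).card = 0 ∨
    (univ.filter (fun e => v ∈ ends e)).card = 3
  bridge : ∀ S : Set V, (Legs ends S).ncard ≠ 1

/-! ### elementary facts -/

theorem exists_ends (ends : E → Sym2 V) (e : E) : ∃ a b, ends e = s(a, b) := by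
  generalize ends e = p
  induction p with
  | _ a b => exact ⟨a, b, rfl⟩

theorem mem_legs_iff (ends : E → Sym2 V) (K : Set V) (e : E) (a b : V) (h : ends e = s(a, b)) :
    e ∈ Legs ends K ↔ (a ∈ K ∧ b ∉ K) ∨ (a ∉ K ∧ b ∈ K) := by
  simp only [Legs, Set.mem_setOf_eq, h, Sym2.mem_iff]
  constructor
  · rintro ⟨⟨v, hv, hvK⟩, ⟨w, hw, hwK⟩⟩
    rcases hv with rfl | rfl <;> rcases hw with rfl | rfl
    · exact absurd hvK hwK
    · exact Or.inl ⟨hvK, hwK⟩
    · exact Or.inr ⟨hwK, hvK⟩
    · exact absurd hvK hwK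
  · rintro (⟨h1, h2⟩ | ⟨h1, h2⟩)
    · exact ⟨⟨a, Or.inl rfl, h1⟩, ⟨b, Or.inr rfl, h2⟩⟩
    · exact ⟨⟨b, Or.inr rfl, h2⟩, ⟨a, Or.inl rfl, h1⟩⟩

theorem mem_inner_iff (ends : E → Sym2 V) (K : Set V) (e : E) (a b : V) (h : ends e = s(a, b)) :
    e ∈ Inner ends K ↔ a ∈ K ∧ b ∈ K := by
  simp only [Inner, Set.mem_setOf_eq, h, Sym2.mem_iff]
  constructor
  · intro h
    exact ⟨h a (Or.inl rfl), h b (Or.inr rfl)⟩
  · rintro ⟨h1, h2⟩ v (rfl | rfl)
    · exact h1
    · exact h2

theorem mem_touch_iff (ends : E → Sym2 V) (K : Set V) (e : E) (a b : V) (h : ends e = s(a, b)) :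
    e ∈ Touch ends K ↔ a ∈ K ∨ b ∈ K := by
  simp only [Touch, Set.mem_setOf_eq, h, Sym2.mem_iff]
  constructor
  · rintro ⟨v, rfl | rfl, hv⟩
    · exact Or.inl hv
    · exact Or.inr hv
  · rintro (h | h)
    · exact ⟨a, Or.inl rfl, h⟩
    · exact ⟨b, Or.inr rfl, h⟩

theorem mem_between_iff (ends : E → Sym2 V) (S T : Set V) (e : E) (a b : V)
    (h : ends e = s(a, b)) :
    e ∈ Between ends S T ↔ (a ∈ S ∧ b ∈ T) ∨ (b ∈ S ∧ a ∈ T) := by
  simp only [Between, Set.mem_setOf_eq, h]
  constructor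
  · rintro ⟨u, hu, w, hw, huw⟩
    rcases Sym2.eq_iff.1 huw with ⟨rfl, rfl⟩ | ⟨rfl, rfl⟩
    · exact Or.inl ⟨hu, hw⟩
    · exact Or.inr ⟨hu, hw⟩
  · rintro (⟨h1, h2⟩ | ⟨h1, h2⟩)
    · exact ⟨a, h1, b, h2, rfl⟩
    · exact ⟨b, h1, a, h2, Sym2.eq_swap⟩

theorem between_comm (ends : E → Sym2 V) (S T : Set V) :
    Between ends S T = Between ends T S := by
  ext e
  obtain ⟨a, b, h⟩ := exists_ends ends e
  rw [mem_between_iff ends S T e a b h, mem_between_iff ends T S e a b h]
  tauto

theorem touch_eq (ends : E → Sym2 V) (K : Set V) :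
    Touch ends K = Inner ends K ∪ Legs ends K := by
  ext e
  obtain ⟨a, b, h⟩ := exists_ends ends e
  rw [Set.mem_union, mem_touch_iff ends K e a b h, mem_inner_iff ends K e a b h,
    mem_legs_iff ends K e a b h]
  tauto

theorem not_inner_of_legs (ends : E → Sym2 V) (K : Set V) (e : E) (h : e ∈ Legs ends K) :
    e ∉ Inner ends K := by
  obtain ⟨a, b, hab⟩ := exists_ends ends e
  rw [mem_inner_iff ends K e a b hab]
  rw [mem_legs_iff ends K e a b hab] at h
  tauto

theorem Good.toM [Fintype V] [Fintype E] {ends : E → Sym2 V} {K : Set V} {b : E → W}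
    (h : Good ends K b) : GoodM ends K b := by
  obtain ⟨P, i, X, comp, h, h1, h2, h3⟩ := h
  exact ⟨P, i, X, comp, h, h1, h3⟩

theorem Fine.toM [Fintype V] [Fintype E] {ends : E → Sym2 V} {K : Set V}
    (h : Fine ends K) : FineM ends K := by
  obtain ⟨L, h1, h2, h3⟩ := h
  exact ⟨L, h1, h2, fun b hb => (h3 b hb).toM⟩

/-- sum of the boundary of an edge function over a vertex set: the inner edges cancel -/
theorem sum_bd_set [Fintype V] [Fintype E] (ends : E → Sym2 V) (hl : ∀ e, ¬ (ends e).IsDiag)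
    (K : Set V) (F : E → W) :
    ∑ v ∈ univ.filter (fun v => v ∈ K), bd ends F v =
      ∑ e ∈ univ.filter (fun e => e ∈ Legs ends K), F e := by
  unfold bd
  rw [Finset.sum_filter, Finset.sum_filter]
  simp only [Finset.sum_filter]
  have h1 : ∀ v, (if v ∈ K then ∑ e, (if v ∈ ends e then F e else 0) else 0) =
      ∑ e, (if v ∈ K ∧ v ∈ ends e then F e else 0) := by
    intro v
    split_ifs with h
    · simp [h]
    · simp [h]
  simp only [h1]
  rw [Finset.sum_comm]
  apply Finset.sum_congr rfl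
  intro e _
  obtain ⟨a, b, hab⟩ := exists_ends ends e
  have hne : a ≠ b := by
    have := hl e
    rw [hab] at this
    simpa using this
  rw [← Finset.sum_filter]
  by_cases ha : a ∈ K <;> by_cases hb : b ∈ K
  · have : univ.filter (fun v => v ∈ K ∧ v ∈ ends e) = {a, b} := by
      ext v
      simp only [hab, Finset.mem_filter, Finset.mem_univ, true_and, Sym2.mem_iff,
        Finset.mem_insert, Finset.mem_singleton]
      constructor
      · exact fun h => h.2
      · rintro (rfl | rfl)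
        · exact ⟨ha, Or.inl rfl⟩
        · exact ⟨hb, Or.inr rfl⟩
    rw [this, Finset.sum_pair hne, if_neg, W_add_self]
    rw [mem_legs_iff ends K e a b hab]
    tauto
  · have : univ.filter (fun v => v ∈ K ∧ v ∈ ends e) = {a} := by
      ext v
      simp only [hab, Finset.mem_filter, Finset.mem_univ, true_and, Sym2.mem_iff,
        Finset.mem_singleton]
      constructor
      · rintro ⟨h1, rfl | rfl⟩
        · rfl
        · exact absurd h1 hb
      · rintro rfl
        exact ⟨ha, Or.inl rfl⟩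
    rw [this, Finset.sum_singleton, if_pos]
    rw [mem_legs_iff ends K e a b hab]
    tauto
  · have : univ.filter (fun v => v ∈ K ∧ v ∈ ends e) = {b} := by
      ext v
      simp only [hab, Finset.mem_filter, Finset.mem_univ, true_and, Sym2.mem_iff,
        Finset.mem_singleton]
      constructor
      · rintro ⟨h1, rfl | rfl⟩
        · exact absurd h1 ha
        · rfl
      · rintro rfl
        exact ⟨hb, Or.inr rfl⟩
    rw [this, Finset.sum_singleton, if_pos]
    rw [mem_legs_iff ends K e a b hab]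
    tauto
  · have : univ.filter (fun v => v ∈ K ∧ v ∈ ends e) = ∅ := by
      ext v
      simp only [hab, Finset.mem_filter, Finset.mem_univ, true_and, Sym2.mem_iff,
        Finset.notMem_empty, iff_false, not_and]
      rintro h1 (rfl | rfl)
      · exact ha h1
      · exact hb h1
    rw [this, Finset.sum_empty, if_neg]
    rw [mem_legs_iff ends K e a b hab]
    tauto

end Pool.Agent.Helper37.IE
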