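import Mathlib
import Pool.Agent.Helper37.IE.Defs
import Pool.Agent.Helper37.IE.St.StepConn
import Pool.Agent.Helper37.IE.St.StepAdj
import Pool.Agent.Helper37.IE.St.StepTwo
import Pool.Agent.Helper37.IE.St.Circ0
import Pool.Agent.Helper37.IE.St.Circ1
import Pool.Agent.Helper37.IE.St.Cases
import Pool.Agent.Helper18.GLQ.Trans6

/-! MP_7cf8d2: the inner existence theorem and its two uses. -/

namespace Pool.Agent.Helper37.IE

open Finset Pool.Agent.Helper49.CDC Pool.Agent.Helper37.GRT
open scoped Classical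

universe u v

variable {V : Type v} {E : Type u}

theorem CutOK.mono {ends : E → Sym2 V} {K K' : Set V} (h : CutOK ends K) (hs : K' ⊆ K) :
    CutOK ends K' := by
  refine ⟨fun S hS h2 => h.1 S (hS.trans hs) h2, fun S hS hne h3 => ?_⟩
  apply h.2 S (hS.trans hs) _ h3
  intro hSK
  apply hne
  exact Set.Subset.antisymm hS (hSK ▸ hs)

/-- INNER EXISTENCE THEOREM -/
theorem fine_of_cut [Fintype V] [Fintype E] (ends : E → Sym2 V) (hl : ∀ e, ¬ (ends e).IsDiag) :
    ∀ K : Set V, K.Nonempty → CubicOn ends K → Conn ends K → CutOK ends K → Fine ends K := by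
  intro K
  induction hn : K.ncard using Nat.strong_induction_on generalizing K with
  | _ n ih =>
  intro hne hcub hconn hcut
  have ih' : ∀ K', K' ⊆ K → K' ≠ K → K'.Nonempty → Conn ends K' → Fine ends K' := by
    intro K' hs hneq hne' hc'
    have hlt : K'.ncard < n := by
      rw [← hn]
      exact Set.ncard_lt_ncard (lt_of_le_of_ne hs hneq) (Set.toFinite K)
    exact ih _ hlt K' rfl hne' (fun v hv => hcub v (hs hv)) hc' (hcut.mono hs)
  have ihR : ∀ R, R ⊆ K → R ≠ K → FineM ends R := by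
    intro R hs hneq
    apply fineM_of_conn ends hl R
    intro K' hK' hne' hc'
    apply ih' K' (hK'.trans hs) _ hne' hc'
    intro h
    exact hneq (Set.Subset.antisymm hs (h ▸ hK'))
  rcases GLQ.config_of_cut' ends hl K hne hcub hconn hcut with
    ⟨v, rfl⟩ | ⟨K1, K2, hK, hd, h1, h2, hc1, hc2, f, hf⟩ |
    ⟨K', u, v, e, a, c, hK, hu, hv, huv, hne', hc', he, ha, hc⟩ |
    ⟨K', n1, v, n2, e1, e2, g1, g2, g3, hK, hn1, hv, hn2, h1v, hv2, h12, hne', hc', he1, he2, hno,
      hg1, hg2, hg3⟩ |
    ⟨X1, S, B', R, y1, y2, g1, g2, β1, β2, hK, hX, hS, hSB, hSR, hBR, h1S, h2S, h1B, h2B, h1R,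
      h2R, h12, hg1, hg2, hβ1, hβ2, hno12, hno, hR, hS0, hne', hc'⟩ |
    ⟨X1, S, B', R, y, g, β, e0, hK, hX, hS, hSB, hSR, hBR, hyS, hyB, hyR, hg, hβ, hno, hR, hS1,
      hne', hc'⟩
  · exact fine_vertex ends hl v (hcub v rfl)
  · have e1 : K1 ≠ K := by
      intro h
      obtain ⟨x, hx⟩ := h2
      have : x ∈ K1 := by rw [h, hK]; exact Or.inr hx
      exact Set.disjoint_left.1 hd this hx
    have e2 : K2 ≠ K := by
      intro h
      obtain ⟨x, hx⟩ := h1
      have : x ∈ K2 := by rw [h, hK]; exact Or.inl hx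
      exact Set.disjoint_left.1 hd hx this
    have s1 : K1 ⊆ K := by rw [hK]; exact Set.subset_union_left
    have s2 : K2 ⊆ K := by rw [hK]; exact Set.subset_union_right
    rw [hK]
    exact step_bridge ends hl K1 K2 hd f hf (ih' K1 s1 e1 h1 hc1) (ih' K2 s2 e2 h2 hc2)
  · have s1 : K' ⊆ K := by
      rw [hK]; intro x hx; exact Or.inl (Or.inl hx)
    have e1 : K' ≠ K := by
      intro h
      apply hu
      rw [h, hK]
      exact Or.inl (Or.inr rfl)
    have hc2 : CubicOn ends {u, v} := by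
      intro x hx
      apply hcub x
      rw [hK]
      rcases hx with rfl | hx
      · exact Or.inl (Or.inr rfl)
      · exact Or.inr hx
    rw [hK]
    exact step_adj ends hl K' u v hu hv huv hc2 e a c he ha hc (ih' K' s1 e1 hne' hc')
  · have s1 : K' ⊆ K := by
      rw [hK]; intro x hx; exact Or.inl (Or.inl (Or.inl hx))
    have e1' : K' ≠ K := by
      intro h
      apply hv
      rw [h, hK]
      exact Or.inl (Or.inr rfl)
    have hc2 : CubicOn ends {n1, v, n2} := by
      intro x hx
      apply hcub x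
      rw [hK]
      rcases hx with rfl | rfl | hx
      · exact Or.inl (Or.inl (Or.inr rfl))
      · exact Or.inl (Or.inr rfl)
      · exact Or.inr hx
    rw [hK]
    exact step_two ends hl K' n1 v n2 hn1 hv hn2 h1v hv2 h12 hc2 e1 e2 g1 g2 g3 he1 he2 hno hg1
      hg2 hg3 (ih' K' s1 e1' hne' hc')
  · have s1 : B' ⊆ K := by
      rw [hK]; intro x hx; exact Or.inl (Or.inr (Or.inl (Or.inl hx)))
    have e1' : B' ≠ K := by
      intro h
      apply h1B
      rw [h, hK]
      exact Or.inl (Or.inr (Or.inl (Or.inr rfl)))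
    have s2 : R ⊆ K := by
      rw [hK]; intro x hx; exact Or.inr hx
    have e2' : R ≠ K := by
      intro h
      apply h1R
      rw [h, hK]
      exact Or.inl (Or.inr (Or.inl (Or.inr rfl)))
    have hc2 : CubicOn ends (S ∪ {y1, y2}) := by
      intro x hx
      apply hcub x
      rw [hK]
      rcases hx with hx | rfl | hx
      · exact Or.inl (Or.inl hx)
      · exact Or.inl (Or.inr (Or.inl (Or.inr rfl)))
      · exact Or.inl (Or.inr (Or.inr hx))
    have hR' := hR
    have hS0' := hS0
    rw [hK] at hR' hS0'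
    rw [hK]
    exact step_circ0 ends hl X1 hX S B' R y1 y2 hS hc2 hSB hSR hBR h1S h2S h1B h2B h1R h2R h12 g1
      g2 β1 β2 hg1 hg2 hβ1 hβ2 hno12 hno hR' hS0' (ih' B' s1 e1' hne' hc') (ihR R s2 e2')
  · have s1 : B' ⊆ K := by
      rw [hK]; intro x hx; exact Or.inl (Or.inr (Or.inl hx))
    have e1' : B' ≠ K := by
      intro h
      apply hyB
      rw [h, hK]
      exact Or.inl (Or.inr (Or.inr rfl))
    have s2 : R ⊆ K := by
      rw [hK]; intro x hx; exact Or.inr hx
    have e2' : R ≠ K := by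
      intro h
      apply hyR
      rw [h, hK]
      exact Or.inl (Or.inr (Or.inr rfl))
    have hc2 : CubicOn ends (S ∪ {y}) := by
      intro x hx
      apply hcub x
      rw [hK]
      rcases hx with hx | rfl
      · exact Or.inl (Or.inl hx)
      · exact Or.inl (Or.inr (Or.inr rfl))
    have hR' := hR
    have hS1' := hS1
    rw [hK] at hR' hS1'
    rw [hK]
    exact step_circ1 ends hl X1 hX S B' R y hS hc2 hSB hSR hBR hyS hyB hyR g β e0 hg hβ hno hR'
      hS1' (ih' B' s1 e1' hne' hc') (ihR R s2 e2')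

end Pool.Agent.Helper37.IE
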